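import Pool.Agent.H30.Exp

set_option autoImplicit false
open Pool.Agent.H30.ExpDefs Pool.Agent.H30.Exp

namespace Pool.Agent.Results.MP_094caa_co.NotUnimodal

theorem result : ∃ (k : ℕ) (π : Equiv.Perm (Fin k)) (n a b c : ℕ), k + 2 ≤ n ∧ a < b ∧ b < c ∧
    c ≤ n.choose 2 ∧ E n b π < E n a π ∧ E n b π < E n c π := by
  refine ⟨5, pat, 7, 12, 13, 14, by norm_num, by norm_num, by norm_num, by decide, ?_⟩
  rw [E_eq, E_eq, E_eq, c1, c2, c3, d1, d2, d3]
  norm_num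

end Pool.Agent.Results.MP_094caa_co.NotUnimodal
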